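import Pool.Agent.H60.KT.Inf

set_option autoImplicit false

/-!
# Property (T) for the incidence groups of all complete bipartite graphs

`Gam m n` is the incidence group of the complete bipartite graph `K_{m,n}`: its generators are the
cells of an array with `m` rows and `n` columns, they are involutions, generators in one row or in
one column commute, and the product of every row and of every column is trivial.

* Two disjoint four-cycles (if `m, n ≥ 4`) give a homomorphism onto an infinite dihedral group.
* For `K_{6,3}` identifying the rows in pairs gives a group which acts on the lattice of dimension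
  four by affine signed permutations, with infinite orbits.
* For `K_{5,3}` the first two columns give two homomorphisms `a, b` of the group of signs
  `{1,-1}^5` modulo its diagonal with `a v`, `b v` commuting for all sixteen `v`; the products
  `c v = a v * b v` commute with each other and `a w * c v * a w = c w * c (w v)`, so that the
  group is finite.
-/

namespace Pool.Agent.Results.MP_2cd205_al.CompleteBipartite

open Pool.Agent.H60.KT

/-- **Property (T) for the incidence groups of complete bipartite graphs.** The incidence group of
`K_{m,n}` has property (T) exactly if it is finite, and this is the case exactly if `m ≤ 2` or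
`n ≤ 2` or `(m, n)` is one of `(3, 3)`, `(3, 4)`, `(3, 5)`, `(4, 3)`, `(5, 3)`. In particular the
incidence group of `K_{3,6}` does not have property (T). -/
theorem result (m n : ℕ) :
    (KazhdanT (Gam m n) ↔ Finite (Gam m n)) ∧
    (Finite (Gam m n) ↔ m ≤ 2 ∨ n ≤ 2 ∨ (m = 3 ∧ n ≤ 5) ∨ (n = 3 ∧ m ≤ 5)) := by
  have h1 : Finite (Gam m n) → KazhdanT (Gam m n) := fun _ => kazhdanT_of_finite _
  have h2 : KazhdanT (Gam m n) → Small m n := fun h => by
    by_contra h3
    exact not_T_of_not_small h3 h
  have h3 : Small m n → Finite (Gam m n) := finite_of_small
  exact ⟨⟨fun h => h3 (h2 h), h1⟩, ⟨fun h => h2 (h1 h), h3⟩⟩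

end Pool.Agent.Results.MP_2cd205_al.CompleteBipartite
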